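import Pool.Agent.Helper66.InvJ

set_option autoImplicit false

open Set Filter Topology MeasureTheory

namespace Pool.Agent.Results.MP_7fd4b2_an.GraphOverSide

open Pool.Agent.Helper66.Bil

/-- Let `T` be a polygon, `A` a set of its sides and `e` a vector such that from the inner points
of all sides not in `A` one can move a bit in the direction `e` without leaving the polygon. Then
there is a countable set `C` of directions such that for every invariant set `X` of the billiard map
which contains the phase space of all sides in `A`, all states outside `X` have a direction in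
`C`; in particular the states outside `X` form a null set over each side. -/
theorem result (T : Table) (A : Set (Fin T.N)) (e : ℂ) (he : e ≠ 0)
    (h : ∀ j ∉ A, ∀ x ∈ openSegment ℝ (T.a j) (T.b j), ∀ᶠ t : ℝ in 𝓝[>] 0, x + t * e ∈ T.P) :
    ∃ C : Set Circle, C.Countable ∧ ∀ X : Set (ℂ × Circle), BInvariant T X →
      (∀ i ∈ A, BStates T i ⊆ X) →
        (∀ p ∈ (⋃ j, BStates T j) \ X, p.2 ∈ C) ∧
        ∀ j, volume {q : ℝ × ℝ | (T.a j + q.1 * (T.b j - T.a j), Circle.exp q.2) ∈
          (⋃ j, BStates T j) \ X} = 0 := by
  obtain ⟨C, hC, h1⟩ := binv_general T A he h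
  exact ⟨C, hC, fun X hX hA => ⟨h1 X hX hA, fun j =>
    null_of_countable hC (fun τ : ℝ => T.a j + τ * (T.b j - T.a j)) (h1 X hX hA)⟩⟩

end Pool.Agent.Results.MP_7fd4b2_an.GraphOverSide
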